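import Pool.Agent.Helper72.LSr.S4
import Pool.Agent.Helper72.LSr.S6

/-!
# LR-S5a: Case I of the Lovasz-Simonovits proof
-/

namespace Pool.Agent.Helper8.LSr

open Finset
open scoped Classical
open Pool.Agent.Helper72.LSr

variable {V : Type} {j : ℕ} {G : SimpleGraph V} {S : Finset V} {k A B : ℕ}

/-- Case I: some `Y_v ≥ 1` -/
theorem case1 (h : CE V j G S k A B) (hY : ∃ v ∈ S, 1 ≤ Yv k A B G S v) : False := by
  have hDp := all_D_pos h
  have hrS := rS_eq (G := G) (S := S) k A B
  have hg := h.hg
  have hr := h.hr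
  have hbound : ∀ F : V → ℤ, ∃ N : ℕ, ∀ v ∈ S, F v ≤ N := by
    intro F
    refine ⟨∑ v ∈ S, (F v).natAbs, fun v hv => ?_⟩
    have h1 : (F v).natAbs ≤ ∑ v ∈ S, (F v).natAbs :=
      single_le_sum (f := fun v => (F v).natAbs) (fun _ _ => Nat.zero_le _) hv
    have h2 : F v ≤ (F v).natAbs := Int.le_natAbs
    have h3 : ((F v).natAbs : ℤ) ≤ ((∑ v ∈ S, (F v).natAbs : ℕ) : ℤ) := by exact_mod_cast h1
    linarith
  rcases A with _ | A
  · obtain ⟨B', rfl⟩ : ∃ B', B = B' + 1 := ⟨B - 1, by have := h.hAB; omega⟩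
    have hQ : QH V j G S (k + 1) B' 0 := by
      refine ⟨by omega, h.th1, h.th2, ?_, ?_, ?_, ?_, ?_⟩
      · intro x hx y hy hadj
        have h1 := h.hM0 x hx y hy hadj
        rw [es_sw] at h1
        linarith
      · rw [Phi_sw]; exact h.hP
      · intro v hv
        rw [Dv_sw]
        have := hDp v hv
        linarith
      · rw [MS_sw]; linarith
      · rw [rS_sw]; linarith
    obtain ⟨N, hN⟩ := hbound (fun v => Yv (k + 1) (B' + 1) 0 G S v)
    have h2 := (last_line N (k + 1) B' 0 hQ hN (by
      obtain ⟨v, hv, hv1⟩ := hY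
      exact ⟨v, hv, by rw [Yv_sw]; exact hv1⟩)).1
    rw [gS_sw] at h2
    linarith
  · have hQ : QH V j G S k A B := by
      refine ⟨h.hk, h.th1, h.th2, ?_, h.hP, hDp, by linarith, hr⟩
      intro x hx y hy hadj
      have h1 := h.hM0 x hx y hy hadj
      linarith
    obtain ⟨N, hN⟩ := hbound (fun v => Yv k (A + 1) B G S v)
    obtain ⟨-, hE⟩ := last_line N k A B hQ hN hY
    have hne : S.Nonempty := by
      obtain ⟨v, hv, -⟩ := hY
      exact ⟨v, hv⟩
    obtain ⟨w, hw, hwmax⟩ := exists_max_image S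
      (fun v => (Yv k (A + 1) B G S v : ℚ) / Dv k (A + 1) B G S v) hne
    have hmax : ∀ v ∈ S, Yv k (A + 1) B G S v * Dv k (A + 1) B G S w
        ≤ Yv k (A + 1) B G S w * Dv k (A + 1) B G S v := by
      intro v hv
      have h1 := hwmax v hv
      have h2 : (0 : ℚ) < Dv k (A + 1) B G S v := by
        have := hDp v hv
        exact_mod_cast (by linarith : (0 : ℤ) < Dv k (A + 1) B G S v)
      have h3 : (0 : ℚ) < Dv k (A + 1) B G S w := by
        have := hDp w hw
        exact_mod_cast (by linarith : (0 : ℤ) < Dv k (A + 1) B G S w)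
      rw [div_le_div_iff₀ h2 h3] at h1
      exact_mod_cast h1
    have hYw : 1 ≤ Yv k (A + 1) B G S w := by
      obtain ⟨v, hv, hv1⟩ := hY
      have h1 := hmax v hv
      have h2 := hDp v hv
      have h3 := hDp w hw
      by_contra hc
      push Not at hc
      have h4 : Yv k (A + 1) B G S w ≤ 0 := by linarith
      nlinarith
    obtain ⟨q1, q2, q3⟩ := ql hQ (fun v hv => by have := hE v hv; linarith) hw hmax hYw
    have hK : 0 ≤ K G (NH G S w) 2 := by unfold K; positivity
    have hmx : max (-(rS k (A + 1) B G S)) 0 = 0 := max_eq_right (by linarith)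
    have hML : ML V j G S k A B w := by
      refine ⟨h.hk, h.th1, h.th2, ?_, hDp, hE, ?_, hw, hmax, ?_, q2, Or.inl ⟨hr, h.hM⟩, ?_⟩
      · rw [hmx, mul_zero]
        have := h.hP
        linarith
      · intro u hu v hv hadj
        refine cl_a h hu (hDp u hu) (by have := hE u hu; linarith) v ?_
        unfold nb
        rw [mem_filter]
        exact ⟨hv, hadj⟩
      · rw [hmx]; linarith
      · intro v hv hv0
        rcases B with _ | B
        · refine h5_zero h ?_ v hv hv0.le
          have := h.hM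
          have h3 : (2 : ℤ) ≤ k := by linarith
          exact_mod_cast h3
        · exact h5_B h v hv hv0.le
    exact hML.false

end Pool.Agent.Helper8.LSr
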